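import Mathlib
import Pool.Agent.THS.StmtsB

set_option autoImplicit false

/-! Row TOT of the squad THS: `n ≤ 2 φ(n)^2`. -/

namespace Pool.Agent.THS.H66

/-- The stronger statement for the induction. -/
def P (n : ℕ) : Prop :=
  0 < n → n ≤ 2 * n.totient ^ 2 ∧ (n % 4 ≠ 2 → n ≤ n.totient ^ 2)

theorem prime_pow (p j : ℕ) (hp : p.Prime) : P (p ^ (j + 1)) := by
  intro _
  have hφ : (p ^ (j + 1)).totient = p ^ j * (p - 1) := by
    rw [Nat.totient_prime_pow_succ hp]
  rw [hφ]
  rcases hp.eq_two_or_odd' with rfl | hodd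
  · have h1 : (2 : ℕ) - 1 = 1 := rfl
    rw [h1, mul_one, ← pow_mul]
    constructor
    · have : (2 : ℕ) ^ (j + 1) ≤ 2 * 2 ^ (j * 2) := by
        rw [← pow_succ']
        exact Nat.pow_le_pow_right (by norm_num) (by omega)
      exact this
    · intro h4
      have hj : j ≠ 0 := by
        rintro rfl
        exact h4 (by norm_num)
      exact Nat.pow_le_pow_right (by norm_num) (by omega)
  · have hp3 : 3 ≤ p := by
      have h2 := hp.two_le
      rcases hodd with ⟨m, hm⟩
      omega
    have hq : p ≤ (p - 1) ^ 2 := by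
      obtain ⟨q, rfl⟩ : ∃ q, p = q + 3 := ⟨p - 3, by omega⟩
      have : q + 3 - 1 = q + 2 := by omega
      rw [this]
      nlinarith
    have hpj : p ^ j ≤ (p ^ j) ^ 2 := by
      have h1 : 1 ≤ p ^ j := Nat.one_le_pow _ _ hp.pos
      nlinarith
    have hmain : p ^ (j + 1) ≤ (p ^ j * (p - 1)) ^ 2 := by
      rw [mul_pow, pow_succ]
      exact Nat.mul_le_mul hpj hq
    exact ⟨by omega, fun _ => hmain⟩

theorem coprime_mul (a b : ℕ) (ha : 1 < a) (hb : 1 < b) (hab : Nat.Coprime a b) (hPa : P a)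
    (hPb : P b) : P (a * b) := by
  intro _
  obtain ⟨a1, a2⟩ := hPa (by omega)
  obtain ⟨b1, b2⟩ := hPb (by omega)
  rw [Nat.totient_mul hab, mul_pow]
  set x := a.totient ^ 2
  set y := b.totient ^ 2
  by_cases ha4 : a % 4 = 2
  · have hbo : b % 2 = 1 := by
      by_contra h
      have h2b : 2 ∣ b := by omega
      have h2a : 2 ∣ a := by omega
      have := Nat.dvd_gcd h2a h2b
      rw [hab] at this
      omega
    have hb2 := b2 (by omega)
    constructor
    · calc a * b ≤ (2 * x) * y := Nat.mul_le_mul a1 hb2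
        _ = 2 * (x * y) := by ring
    · intro h
      exfalso
      apply h
      obtain ⟨i, rfl⟩ : ∃ i, a = 4 * i + 2 := ⟨a / 4, by omega⟩
      obtain ⟨j, rfl⟩ : ∃ j, b = 2 * j + 1 := ⟨b / 2, by omega⟩
      have : (4 * i + 2) * (2 * j + 1) = 4 * (2 * i * j + i + j) + 2 := by ring
      rw [this]
      omega
  · have ha2 := a2 ha4
    by_cases hb4 : b % 4 = 2
    · have hao : a % 2 = 1 := by
        by_contra h
        have h2b : 2 ∣ b := by omega
        have h2a : 2 ∣ a := by omega
        have := Nat.dvd_gcd h2a h2b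
        rw [hab] at this
        omega
      constructor
      · calc a * b ≤ x * (2 * y) := Nat.mul_le_mul ha2 b1
          _ = 2 * (x * y) := by ring
      · intro h
        exfalso
        apply h
        obtain ⟨i, rfl⟩ : ∃ i, b = 4 * i + 2 := ⟨b / 4, by omega⟩
        obtain ⟨j, rfl⟩ : ∃ j, a = 2 * j + 1 := ⟨a / 2, by omega⟩
        have : (2 * j + 1) * (4 * i + 2) = 4 * (2 * i * j + i + j) + 2 := by ring
        rw [this]
        omega
    · have hm : a * b ≤ x * y := Nat.mul_le_mul ha2 (b2 hb4)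
      exact ⟨by omega, fun _ => hm⟩

theorem all (n : ℕ) : P n := by
  refine Nat.recOnPosPrimePosCoprime (motive := P) ?_ ?_ ?_ ?_ n
  · intro p k hp hk
    obtain ⟨j, rfl⟩ : ∃ j, k = j + 1 := ⟨k - 1, by omega⟩
    exact prime_pow p j hp
  · intro h
    exact absurd h (lt_irrefl 0)
  · intro _
    simp
  · intro a b ha hb hab hPa hPb
    exact coprime_mul a b ha hb hab hPa hPb

theorem tot : TotStatement := fun n hn => (all n hn).1

end Pool.Agent.THS.H66
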